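import Mathlib
import Pool.Agent.N718.DC.Stm2

/-!
# Generalised Châtelet bundles with random forms (project GC, helper718)

Definitions and statements of the parts. The whole proof is described in the subtasks.
-/

set_option autoImplicit false
set_option linter.all false

namespace Pool.Agent.N718.GC

open Finset Pool.Agent.N718.DC

/-- The data of the system of equations `y_j² - a_j z_j² = b_j ∏_{i ∈ I_j} F_i(x)`, `j < r`. -/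
structure Dat (r m : ℕ) where
  /-- the sets of factors -/
  I : Fin r → Finset (Fin m)
  /-- the coefficients on the left hand sides -/
  a : Fin r → ℤ
  /-- the constant factors -/
  b : Fin r → ℤ

variable {r m : ℕ}

/-- The conditions on the data: the `a_j` are independent modulo squares, the `b_j` are not zero and the
degrees of the right hand sides are even. -/
structure Dat.Ok (E : Dat r m) (e : Fin m → ℕ) : Prop where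
  ha : ∀ T : Finset (Fin r), T.Nonempty → ¬ IsSquare (∏ j ∈ T, E.a j)
  hb : ∀ j, E.b j ≠ 0
  ev : ∀ j, Even (∑ i ∈ E.I j, (e i + 1))

/-- The equation `y² - a z² = N` is soluble in `K`. -/
def Nm {K : Type} [Field K] (a N : K) : Prop := ∃ y z : K, y ^ 2 - a * z ^ 2 = N

/-- The right hand side of the `j`-th equation. -/
def rhs (E : Dat r m) {e : Fin m → ℕ} (c : (i : Fin m) → Fin (e i + 2) → ℤ) (j : Fin r) {K : Type}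
    [Field K] (x y : K) : K := (E.b j : K) * ∏ i ∈ E.I j, fmv (c i) x y

/-- The variety has a point over `K` over the point `(x, y)`, and no form vanishes there. -/
def PG (E : Dat r m) {e : Fin m → ℕ} (c : (i : Fin m) → Fin (e i + 2) → ℤ) {K : Type} [Field K]
    (x y : K) : Prop :=
  (∀ i, fmv (c i) x y ≠ 0) ∧ ∀ j, Nm (E.a j : K) (rhs E c j x y)

/-- Signs for which the equations have real solutions. -/
def SG (E : Dat r m) (s : Fin m → ℤ) : Prop :=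
  (∀ i, s i = 1 ∨ s i = -1) ∧ ∀ j, 0 < E.a j ∨ 0 < E.b j * ∏ i ∈ E.I j, s i

/-! ### Symbols -/

/-- The part of `|F|` which is coprime to `M`. -/
noncomputable def cop (M : ℕ) (F : ℤ) : ℕ :=
  ∏ p ∈ F.natAbs.primeFactors.filter (fun p => ¬ p ∣ M), p ^ padicValNat p F.natAbs

/-- The symbol of `a` modulo the part of `F` which is coprime to `M`. -/
noncomputable def kap (M : ℕ) (a F : ℤ) : ℤ := jacobiSym a (cop M F)

/-- The symbol of `a` modulo the part coprime to `M` of the numbers of sign `s` congruent to `F`. -/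
noncomputable def kps (M : ℕ) (a s F : ℤ) : ℤ := kap M a (F + s * (M * (|F| + 1)))

/-- `M` is divisible by all the primes which divide `2 a`. -/
def Cont (M : ℕ) (a : ℤ) : Prop := 1 ≤ M ∧ 2 ∣ M ∧ ∀ p : ℕ, p.Prime → (p : ℤ) ∣ a → p ∣ M

/-- Part KAP: properties of the symbols. -/
def S_KAP : Prop :=
  (∀ (M : ℕ) (a : ℤ), a ≠ 0 → Cont M a → ∀ F F' : ℤ, 0 < F * F' → (M : ℤ) ∣ F - F' →
    (∀ p : ℕ, p.Prime → p ∣ M → padicValNat p (4 * a.natAbs) < padicValNat p M ∧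
      ¬ (p : ℤ) ^ (padicValNat p M - padicValNat p (4 * a.natAbs)) ∣ F) → kap M a F = kap M a F') ∧
  (∀ (M l k : ℕ) (a F : ℤ), l.Prime → ¬ l ∣ M → 1 ≤ k → F ≠ 0 →
    kap M a F = jacobiSym a l ^ padicValNat l F.natAbs * kap (M * l ^ k) a F) ∧
  (∀ (M : ℕ) (a F G : ℤ), F ≠ 0 → G ≠ 0 → kap M a (F * G) = kap M a F * kap M a G) ∧
  (∀ (M : ℕ) (a F : ℤ), F ≠ 0 → (∀ p : ℕ, p.Prime → (p : ℤ) ∣ F → p ∣ M) → kap M a F = 1) ∧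
  (∀ (M : ℕ) (a F : ℤ), a ≠ 0 → F ≠ 0 → Cont M a → kap M a F = 1 ∨ kap M a F = -1)

/-- Part LOCN: local solubility. -/
def S_LOCN : Prop :=
  (∀ (l : ℕ) [Fact l.Prime] (a N : ℤ), l ≠ 2 → ¬ (l : ℤ) ∣ a → N ≠ 0 →
    (Even (padicValNat l N.natAbs) ∨ jacobiSym a l = 1) → Nm (a : ℚ_[l]) (N : ℚ_[l])) ∧
  (∀ (p : ℕ) [Fact p.Prime] (F F' : ℤ) (k : ℕ), ¬ (p : ℤ) ^ (k + 1) ∣ F →
    (p : ℤ) ^ (k + 3) ∣ F - F' → ∃ z : ℚ_[p], z ≠ 0 ∧ (F' : ℚ_[p]) = F * z ^ 2) ∧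
  (∀ (K : Type) [Field K] (a N z : K), Nm a N → Nm a (N * z ^ 2)) ∧
  ∀ (a N : ℝ), a ≠ 0 → N ≠ 0 → (Nm a N ↔ 0 < a ∨ 0 < N)

/-- Part PROD: the product formula. -/
def S_PROD : Prop := ∀ (M : ℕ) (a N : ℤ), a ≠ 0 → N ≠ 0 → Cont M a → (0 < a ∨ 0 < N) →
  (∀ (p : ℕ) [Fact p.Prime], p ∣ M → Nm (a : ℚ_[p]) (N : ℚ_[p])) → kap M a N = 1

/-- Part ARIG: the Hasse principle for one equation. -/
def S_ARIG : Prop := ∀ (M : ℕ) (a N : ℤ), a ≠ 0 → N ≠ 0 → Cont M a → (0 < a ∨ 0 < N) →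
  (∀ (p : ℕ) [Fact p.Prime], p ∣ M → Nm (a : ℚ_[p]) (N : ℚ_[p])) →
  (∀ p : ℕ, p.Prime → ¬ p ∣ M → (p : ℤ) ∣ N → jacobiSym a p = 1) → Nm (a : ℚ) (N : ℚ)

/-- Part KCH: change of the symbols if the residue classes modulo the powers of the primes of `D` are
changed. -/
def S_KCH : Prop := ∀ (M' : ℕ) (D : Finset ℕ) (k : ℕ) (a s F F' : ℤ), a ≠ 0 → Cont M' a →
  (∀ l ∈ D, l.Prime ∧ ¬ l ∣ M') → (s = 1 ∨ s = -1) → (M' : ℤ) ∣ F - F' →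
  (∀ p : ℕ, p.Prime → p ∣ M' → padicValNat p (4 * a.natAbs) < padicValNat p M' ∧
    ¬ (p : ℤ) ^ (padicValNat p M' - padicValNat p (4 * a.natAbs)) ∣ F) →
  (∀ l ∈ D, ¬ (l : ℤ) ^ k ∣ F ∧ ¬ (l : ℤ) ^ k ∣ F') →
  kps (M' * ∏ l ∈ D, l ^ k) a s F * ∏ l ∈ D, jacobiSym a l ^ padicValNat l F.natAbs =
    kps (M' * ∏ l ∈ D, l ^ k) a s F' * ∏ l ∈ D, jacobiSym a l ^ padicValNat l F'.natAbs

/-! ### Residue classes -/

/-- An exponent for which numbers close to `1` are squares and do not change the symbols. -/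
def dl (E : Dat r m) (p : ℕ) : ℕ := 3 + padicValNat p (4 * ∏ j, (E.a j).natAbs)

/-- The conditions on valuations and local solubility at a residue class modulo `M`. -/
structure LV (E : Dat r m) {e : Fin m → ℕ} (M : ℕ) (γ : (i : Fin m) → Fin (e i + 2) → ℤ)
    (a₀ a₁ : ℤ) : Prop where
  val : ∀ p : ℕ, p.Prime → p ∣ M → dl E p ≤ padicValNat p M ∧
    ∀ i, ¬ (p : ℤ) ^ (padicValNat p M - dl E p + 1) ∣ fm (γ i) a₀ a₁
  sol : ∀ (p : ℕ) [Fact p.Prime], p ∣ M → PG E γ ((a₀ : ℤ) : ℚ_[p]) ((a₁ : ℤ) : ℚ_[p])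

/-- All the conditions at a residue class modulo `M`. -/
def LC (E : Dat r m) {e : Fin m → ℕ} (M : ℕ) (γ : (i : Fin m) → Fin (e i + 2) → ℤ)
    (s : Fin m → ℤ) (a₀ a₁ : ℤ) : Prop :=
  LV E M γ a₀ a₁ ∧ ∀ j, ∀ i ∈ E.I j, kps M (E.a j) (s i) (fm (γ i) a₀ a₁) = 1

/-- The modulus contains the bad primes. -/
def Bad (E : Dat r m) (M : ℕ) : Prop :=
  1 ≤ M ∧ 2 ∣ M ∧ ∀ p : ℕ, p.Prime → (p : ℤ) ∣ ∏ j, (E.a j * E.b j) → p ∣ M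

/-- Part PRODK: the product formula for the symbols at a residue class. -/
def S_PRODK : Prop := ∀ (r m : ℕ) (E : Dat r m) (e : Fin m → ℕ), E.Ok e → ∀ M : ℕ, Bad E M →
  ∀ (γ : (i : Fin m) → Fin (e i + 2) → ℤ) (s : Fin m → ℤ) (a₀ a₁ : ℤ), SG E s → LV E M γ a₀ a₁ →
    ∀ j, ∏ i ∈ E.I j, kps M (E.a j) (s i) (fm (γ i) a₀ a₁) = 1

/-- Part LCI: the conditions depend only on the residue classes. -/
def S_LCI : Prop := ∀ (r m : ℕ) (E : Dat r m) (e : Fin m → ℕ), E.Ok e → ∀ M : ℕ, Bad E M →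
  ∀ (γ γ' : (i : Fin m) → Fin (e i + 2) → ℤ) (s : Fin m → ℤ) (a₀ a₁ a₀' a₁' : ℤ),
    (∀ i, s i = 1 ∨ s i = -1) → (∀ i j, (M : ℤ) ∣ γ i j - γ' i j) → (M : ℤ) ∣ a₀ - a₀' →
    (M : ℤ) ∣ a₁ - a₁' → LC E M γ s a₀ a₁ → LC E M γ' s a₀' a₁'

open Classical in
/-- Part CLSG: rational points for almost all families in a residue class. -/
def S_CLSG : Prop := ∀ (r m : ℕ) (E : Dat r m) (e : Fin m → ℕ), E.Ok e → ∃ C : ℝ, 0 ≤ C ∧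
  ∀ W M : ℕ, 1 ≤ W → Bad E M → (∀ p : ℕ, p.Prime → p ≤ W → p ∣ M) →
  (∀ p : ℕ, p.Prime → p ∣ M → p ≤ W) →
  ∀ (a₀ a₁ : ℤ) (α β : ℝ), α < β → ∀ (γ : (i : Fin m) → Fin (e i + 2) → ℤ) (s : Fin m → ℤ), SG E s →
    LC E M γ s a₀ a₁ →
  ∃ H₀ : ℕ, ∀ H : ℕ, H₀ ≤ H →
    (((BXI e H).filter (fun c => (∀ i j, (M : ℤ) ∣ c i j - γ i j) ∧
      (∀ i, ∀ z : ℝ, α < z → z < β → 0 < (s i : ℝ) * fmv (c i) 1 z) ∧
      ¬ ∃ x y : ℤ, 0 < x ∧ (M : ℤ) ∣ x - a₀ ∧ (M : ℤ) ∣ y - a₁ ∧ α * x < y ∧ (y : ℝ) < β * x ∧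
        PG E c (x : ℚ) (y : ℚ))).card : ℝ) ≤
      C / W * (((2 * H + 1 : ℕ) : ℝ) / M) ^ ncI e

/-! ### Primes which change the symbols -/

/-- Part CHI: a residue class with prescribed symbols. -/
def S_CHI : Prop := ∀ (r : ℕ) (a : Fin r → ℤ),
  (∀ T : Finset (Fin r), T.Nonempty → ¬ IsSquare (∏ j ∈ T, a j)) → ∀ j : Fin r,
  ∃ h : ℕ, Nat.Coprime h (4 * ∏ j, (a j).natAbs) ∧
    ∀ l : ℕ, l % (4 * ∏ j, (a j).natAbs) = h % (4 * ∏ j, (a j).natAbs) →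
      jacobiSym (a j) l = -1 ∧ ∀ j', j' ≠ j → jacobiSym (a j') l = 1

/-- Part DIV: the sum of the reciprocals of the primes in a residue class diverges. -/
def S_DIV : Prop := ∀ q h : ℕ, 1 ≤ q → Nat.Coprime h q → ∀ (W : ℕ) (K : ℝ), ∃ W' : ℕ, W < W' ∧
  K ≤ ∑ l ∈ (Ioc W W').filter (fun l => l.Prime ∧ l % q = h % q), 1 / (l : ℝ)

/-- There is a point at which exactly the forms `i` and `i'` are divisible by `l`, and none is divisible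
by `l ^ 2`. -/
def Dbl {e : Fin m → ℕ} (c : (i : Fin m) → Fin (e i + 2) → ℤ) (i i' : Fin m) (l : ℕ) : Prop :=
  ∃ u₀ u₁ : ℤ, (∀ k, (l : ℤ) ∣ fm (c k) u₀ u₁ ↔ k = i ∨ k = i') ∧
    ∀ k, ¬ (l : ℤ) ^ 2 ∣ fm (c k) u₀ u₁

open Classical in
/-- Part LOCP: the density of the forms with such points. -/
def S_LOCP : Prop := ∀ (m : ℕ) (e : Fin m → ℕ) (i i' : Fin m), i ≠ i' → ∃ l₀ : ℕ, ∀ l : ℕ, l.Prime →
  l₀ ≤ l →
  (((Fintype.piFinset (fun k : Fin m => Fintype.piFinset (fun _ : Fin (e k + 2) =>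
    Ico (0 : ℤ) ((l : ℤ) ^ 2)))).filter (fun c => ¬ Dbl c i i' l)).card : ℝ) ≤
    (1 - 1 / (2 * l)) * ((l : ℝ) ^ 2) ^ ncI e

/-- The prime `l` can be used to change the symbols of `a_j` at the forms `i` and `i'`. -/
def Flip (E : Dat r m) {e : Fin m → ℕ} (c : (i : Fin m) → Fin (e i + 2) → ℤ) (j : Fin r)
    (i i' : Fin m) (l : ℕ) : Prop :=
  l.Prime ∧ jacobiSym (E.a j) l = -1 ∧ (∀ j', j' ≠ j → jacobiSym (E.a j') l = 1) ∧ Dbl c i i' l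

open Classical in
/-- Part RESL: almost all families have such primes. -/
def S_RESL : Prop := ∀ (r m : ℕ) (E : Dat r m) (e : Fin m → ℕ), E.Ok e →
  ∀ (j : Fin r) (i i' : Fin m), i ≠ i' → ∀ (W : ℕ) (η : ℝ), 0 < η →
  ∃ W' : ℕ, W < W' ∧ ∃ H₀ : ℕ, ∀ H : ℕ, H₀ ≤ H →
    (((BXI e H).filter (fun c => ¬ ∃ l : ℕ, W < l ∧ l ≤ W' ∧ Flip E c j i i' l)).card : ℝ) ≤
      η * ((2 * H + 1 : ℕ) : ℝ) ^ ncI e

/-- There are different such primes for all equations and all pairs of a factor and the base factor. -/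
def Wind (E : Dat r m) {e : Fin m → ℕ} (c : (i : Fin m) → Fin (e i + 2) → ℤ) (i₀ : Fin r → Fin m)
    (W W' : ℕ) : Prop :=
  ∃ L : Fin r → Fin m → ℕ,
    (∀ j i, i ∈ E.I j → i ≠ i₀ j → W < L j i ∧ L j i ≤ W' ∧ Flip E c j i (i₀ j) (L j i)) ∧
    ∀ j i j' i', i ∈ E.I j → i ≠ i₀ j → i' ∈ E.I j' → i' ≠ i₀ j' → L j i = L j' i' → j = j' ∧ i = i'

open Classical in
/-- Part RESW: almost all families have such a system of primes. -/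
def S_RESW : Prop := ∀ (r m : ℕ) (E : Dat r m) (e : Fin m → ℕ), E.Ok e → ∀ i₀ : Fin r → Fin m,
  ∀ (W : ℕ) (η : ℝ), 0 < η → ∃ W' : ℕ, W < W' ∧ ∃ H₀ : ℕ, ∀ H : ℕ, H₀ ≤ H →
    (((BXI e H).filter (fun c => ¬ Wind E c i₀ W W')).card : ℝ) ≤ η * ((2 * H + 1 : ℕ) : ℝ) ^ ncI e

/-- There is a point at which no form is divisible by `l`. -/
def Triv {e : Fin m → ℕ} (c : (i : Fin m) → Fin (e i + 2) → ℤ) (l : ℕ) : Prop :=
  ∃ u₀ u₁ : ℤ, ∀ i, ¬ (l : ℤ) ∣ fm (c i) u₀ u₁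

open Classical in
/-- Part TRIV: for almost all families there are such points for all large primes. -/
def S_TRIV : Prop := ∀ (m : ℕ) (e : Fin m → ℕ) (η : ℝ), 0 < η → ∃ W₀ : ℕ, ∀ W : ℕ, W₀ ≤ W →
  ∀ M : ℕ, 1 ≤ M → (∀ p : ℕ, p.Prime → p ∣ M → p ≤ W) →
  ∀ γ : (i : Fin m) → Fin (e i + 2) → ℤ, ∃ H₀ : ℕ, ∀ H : ℕ, H₀ ≤ H →
    (((BXI e H).filter (fun c => (∀ i j, (M : ℤ) ∣ c i j - γ i j) ∧
      ∃ l : ℕ, l.Prime ∧ W < l ∧ ¬ Triv c l)).card : ℝ) ≤ η * (((2 * H + 1 : ℕ) : ℝ) / M) ^ ncI e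

/-! ### The real place -/

open Classical in
/-- Part REALS: for most of the families the signs at a point of `U` are the signs on one of finitely many
intervals. -/
def S_REALS : Prop := ∀ (ι : Type) [Fintype ι] [DecidableEq ι] (e : ι → ℕ) (U : Set ℝ), IsOpen U →
  ∀ η : ℝ, 0 < η →
  ∃ (Z : Finset (ℝ × ℝ)) (H₀ : ℕ), (∀ w ∈ Z, w.1 < w.2 ∧ Set.Icc w.1 w.2 ⊆ U) ∧ ∀ H : ℕ, H₀ ≤ H →
    (((BXI e H).filter (fun c => ∃ s : ι → ℤ, (∀ k, s k = 1 ∨ s k = -1) ∧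
      (∃ z ∈ U, ∀ k, 0 < (s k : ℝ) * fmv (c k) 1 z) ∧
      ¬ ∃ w ∈ Z, ∀ k, ∀ z : ℝ, w.1 < z → z < w.2 → 0 < (s k : ℝ) * fmv (c k) 1 z)).card : ℝ) ≤
      η * ((2 * H + 1 : ℕ) : ℝ) ^ ncI e

open Classical in
/-- Part BOXG: a positive proportion of the families in a residue class is close to a given ray. -/
def S_BOXG : Prop := ∀ (ι : Type) [Fintype ι] [DecidableEq ι] (e : ι → ℕ)
  (v : (k : ι) → Fin (e k + 2) → ℝ) (ε : ℝ), 0 < ε →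
  ∃ p₀ : ℝ, 0 < p₀ ∧ ∀ M : ℕ, 1 ≤ M → ∀ γ : (k : ι) → Fin (e k + 2) → ℤ, ∃ H₀ : ℕ, ∀ H : ℕ, H₀ ≤ H →
    p₀ * (((2 * H + 1 : ℕ) : ℝ) / M) ^ ncI e ≤
      (((BXI e H).filter (fun c => (∀ k j, (M : ℤ) ∣ c k j - γ k j) ∧
        ∃ t : ℝ, 0 < t ∧ ∀ k j, |(c k j : ℝ) - t * v k j| ≤ ε * t)).card : ℝ)

/-! ### The main theorem -/

/-- There are real points over points `(1, z)`, `z ∈ U`, and points over all `ℚ_p`. -/
def LocG (E : Dat r m) {e : Fin m → ℕ} (U : Set ℝ) (c : (i : Fin m) → Fin (e i + 2) → ℤ) : Prop :=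
  (∃ z ∈ U, PG E c (1 : ℝ) z) ∧ ∀ p : Nat.Primes, ∃ x y : ℚ_[(p : ℕ)], PG E c x y

/-- For all primitive local points at the primes of `S` there is a rational point whose base point is
close to them modulo `p ^ N` and lies in `U`. -/
def ApprG (E : Dat r m) {e : Fin m → ℕ} (U : Set ℝ) (S : Finset Nat.Primes) (N : ℕ)
    (c : (i : Fin m) → Fin (e i + 2) → ℤ) : Prop :=
  ∀ X Y : (p : Nat.Primes) → ℚ_[(p : ℕ)], (∀ p ∈ S, max ‖X p‖ ‖Y p‖ = 1 ∧ PG E c (X p) (Y p)) →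
    ∃ x y : ℤ, 0 < x ∧ (y : ℝ) / x ∈ U ∧ PG E c (x : ℚ) (y : ℚ) ∧
      ∀ p ∈ S, ‖X p - (x : ℚ_[(p : ℕ)])‖ ≤ (((p : ℕ) : ℝ) ^ N)⁻¹ ∧
        ‖Y p - (y : ℚ_[(p : ℕ)])‖ ≤ (((p : ℕ) : ℝ) ^ N)⁻¹

/-- Part GLUEG: the local points are replaced by one integral point with trivial symbols. -/
def S_GLUEG : Prop := ∀ (r m : ℕ) (E : Dat r m) (e : Fin m → ℕ), 1 ≤ m → E.Ok e →
  ∀ i₀ : Fin r → Fin m,
  (∀ j, (E.I j).Nonempty → i₀ j ∈ E.I j) →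
  ∀ (S : Finset Nat.Primes) (N W W' : ℕ) (n : ℕ → ℕ) (M : ℕ), 2 ≤ W → W ≤ W' →
    (∀ p : ℕ, p.Prime → (p : ℤ) ∣ ∏ j, (E.a j * E.b j) → p ≤ W) →
    M = (∏ p ∈ (Icc 1 W).filter Nat.Prime, p ^ (3 * n p + 11 + dl E p)) *
      ∏ l ∈ (Ioc W W').filter Nat.Prime, l ^ 4 →
    (∀ p ∈ S, (p : ℕ) ≤ W) → (∀ p, N ≤ n p) → ∀ c : (i : Fin m) → Fin (e i + 2) → ℤ,
    (∀ p : ℕ, p.Prime → p ≤ W → ¬ padBad p (n p) c) →
    (∀ l : ℕ, l.Prime → W < l → l ≤ W' → Triv c l) → Wind E c i₀ W W' →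
    (∀ p : Nat.Primes, (p : ℕ) ≤ W → ∃ x y : ℚ_[(p : ℕ)], PG E c x y) →
    ∀ s : Fin m → ℤ, SG E s →
    ∀ X Y : (p : Nat.Primes) → ℚ_[(p : ℕ)], (∀ p ∈ S, max ‖X p‖ ‖Y p‖ = 1 ∧ PG E c (X p) (Y p)) →
    ∃ a₀ a₁ : ℤ, (∀ p ∈ S, ‖X p - (a₀ : ℚ_[(p : ℕ)])‖ ≤ (((p : ℕ) : ℝ) ^ N)⁻¹ ∧
        ‖Y p - (a₁ : ℚ_[(p : ℕ)])‖ ≤ (((p : ℕ) : ℝ) ^ N)⁻¹) ∧ LC E M c s a₀ a₁

open Classical in
/-- Part MAINAG: approximation for almost all families with points everywhere locally. -/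
def S_MAINAG : Prop := ∀ (r m : ℕ) (E : Dat r m) (e : Fin m → ℕ), 1 ≤ m → E.Ok e → ∀ U : Set ℝ,
  IsOpen U → ∀ (S : Finset Nat.Primes) (N : ℕ) (η : ℝ), 0 < η → ∃ H₀ : ℕ, ∀ H : ℕ, H₀ ≤ H →
    (((BXI e H).filter (fun c => LocG E U c ∧ ¬ ApprG E U S N c)).card : ℝ) ≤
      η * ((2 * H + 1 : ℕ) : ℝ) ^ ncI e

open Classical in
/-- Part MAINBG: a positive proportion of the families has points everywhere locally, if there is one. -/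
def S_MAINBG : Prop := ∀ (r m : ℕ) (E : Dat r m) (e : Fin m → ℕ), E.Ok e → ∀ U : Set ℝ,
  (∃ c₀ : (i : Fin m) → Fin (e i + 2) → ℤ, LocG E U c₀) →
  ∃ δ : ℝ, 0 < δ ∧ ∃ H₀ : ℕ, ∀ H : ℕ, H₀ ≤ H →
    δ * ((2 * H + 1 : ℕ) : ℝ) ^ ncI e ≤ (((BXI e H).filter (fun c => LocG E U c)).card : ℝ)

end Pool.Agent.N718.GC
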