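import Mathlib
import Pool.Agent.N718.GC.Stm
import Pool.Agent.N718.DC.Stm4

/-!
# Generalised Châtelet bundles with random forms: weak approximation (project GC, second part, helper718)
-/

set_option autoImplicit false
set_option linter.all false

namespace Pool.Agent.N718.GC

open Finset Pool.Agent.N718.DC

variable {r m : ℕ}

/-- `(t, y, z)` is a point of the affine variety `y_j² - a_j z_j² = b_j ∏_{i ∈ I_j} F_i(1, t) ≠ 0`. -/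
def OnA (E : Dat r m) {e : Fin m → ℕ} (c : (i : Fin m) → Fin (e i + 2) → ℤ) {K : Type} [Field K]
    (t : K) (y z : Fin r → K) : Prop :=
  (∀ i, fmv (c i) 1 t ≠ 0) ∧ ∀ j, y j ^ 2 - (E.a j : K) * z j ^ 2 = rhs E c j 1 t

/-- The pairs `(y, z)` and `(y', z')` are close. -/
def Cl {K : Type} [NormedField K] (δ : ℝ) (y z y' z' : K) : Prop :=
  ‖y - y'‖ ≤ δ * max ‖y‖ ‖z‖ ∧ ‖z - z'‖ ≤ δ * max ‖y‖ ‖z‖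

/-- Part WFIB: weak approximation for the equation `y² - a z² = N`. -/
def S_WFIB : Prop := ∀ (a : ℤ) (N : ℚ), a ≠ 0 → N ≠ 0 → Nm (a : ℚ) N → ∀ (S : Finset Nat.Primes)
  (Y Z : (p : Nat.Primes) → ℚ_[(p : ℕ)]) (YR ZR : ℝ),
  (∀ p ∈ S, Y p ^ 2 - (a : ℚ_[(p : ℕ)]) * Z p ^ 2 = (N : ℚ_[(p : ℕ)])) →
  YR ^ 2 - (a : ℝ) * ZR ^ 2 = (N : ℝ) → ∀ ε : ℝ, 0 < ε →
  ∃ y z : ℚ, y ^ 2 - (a : ℚ) * z ^ 2 = N ∧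
    (∀ p ∈ S, ‖Y p - (y : ℚ_[(p : ℕ)])‖ ≤ ε ∧ ‖Z p - (z : ℚ_[(p : ℕ)])‖ ≤ ε) ∧
    |YR - (y : ℝ)| ≤ ε ∧ |ZR - (z : ℝ)| ≤ ε

/-- Part WLOCP: local points move with the base point. -/
def S_WLOCP : Prop := ∀ (r m : ℕ) (E : Dat r m) (e : Fin m → ℕ), E.Ok e → ∀ (m₀ : ℕ), 1 ≤ m₀ →
  ∀ (p : ℕ) [Fact p.Prime] (ε : ℝ), 0 < ε → ∃ δ : ℝ, 0 < δ ∧
    ∀ (c : (i : Fin m) → Fin (e i + 2) → ℤ) (T t : ℚ_[p]), ‖T‖ ≤ m₀ →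
      (∀ i, 1 / (m₀ : ℝ) ≤ ‖fmv (c i) 1 T‖) → ‖T - t‖ ≤ δ →
      ∀ Y Z : Fin r → ℚ_[p], OnA E c T Y Z → ∃ Y' Z' : Fin r → ℚ_[p], OnA E c t Y' Z' ∧
        ∀ j, Cl ε (Y j) (Z j) (Y' j) (Z' j)

/-- Part WLOCR: real points move with the base point. -/
def S_WLOCR : Prop := ∀ (r m : ℕ) (E : Dat r m) (e : Fin m → ℕ), E.Ok e → ∀ (m₀ : ℕ), 1 ≤ m₀ →
  ∀ (ε : ℝ), 0 < ε → ∃ δ : ℝ, 0 < δ ∧ ∀ H : ℕ, 1 ≤ H → ∀ c ∈ BXI e H, ∀ (T t : ℝ), |T| ≤ m₀ →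
      (∀ i, (H : ℝ) / (m₀ : ℝ) ≤ |fmv (c i) 1 T|) → |T - t| ≤ δ →
      ∀ Y Z : Fin r → ℝ, OnA E c T Y Z → ∃ Y' Z' : Fin r → ℝ, OnA E c t Y' Z' ∧
        ∀ j, Cl ε (Y j) (Z j) (Y' j) (Z' j)

/-- Weak approximation to precision `1 / m₀` at the real place and at the primes up to `m₀`, for local
points which are not too close to the degenerate fibres and to infinity. -/
def WAG (E : Dat r m) {e : Fin m → ℕ} (H m₀ : ℕ) (c : (i : Fin m) → Fin (e i + 2) → ℤ) : Prop :=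
  ∀ (T : (p : Nat.Primes) → ℚ_[(p : ℕ)]) (Y Z : (p : Nat.Primes) → Fin r → ℚ_[(p : ℕ)])
    (TR : ℝ) (YR ZR : Fin r → ℝ), (∀ p, OnA E c (T p) (Y p) (Z p)) → OnA E c TR YR ZR →
    (∀ p : Nat.Primes, (p : ℕ) ≤ m₀ → ‖T p‖ ≤ m₀ ∧ ∀ i, 1 / (m₀ : ℝ) ≤ ‖fmv (c i) 1 (T p)‖) →
    (|TR| ≤ m₀ ∧ ∀ i, (H : ℝ) / (m₀ : ℝ) ≤ |fmv (c i) 1 TR|) →
    ∃ (t : ℚ) (y z : Fin r → ℚ), OnA E c t y z ∧
      (∀ p : Nat.Primes, (p : ℕ) ≤ m₀ → ‖T p - (t : ℚ_[(p : ℕ)])‖ ≤ 1 / (m₀ : ℝ) ∧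
        ∀ j, Cl (1 / (m₀ : ℝ)) (Y p j) (Z p j) (y j : ℚ_[(p : ℕ)]) (z j : ℚ_[(p : ℕ)])) ∧
      |TR - (t : ℝ)| ≤ 1 / (m₀ : ℝ) ∧ ∀ j, Cl (1 / (m₀ : ℝ)) (YR j) (ZR j) (y j : ℝ) (z j : ℝ)

open Classical in
/-- Part MAINWG: weak approximation for almost all families. -/
def S_MAINWG : Prop := ∀ (r m : ℕ) (E : Dat r m) (e : Fin m → ℕ), 1 ≤ m → E.Ok e →
  ∀ (m₀ : ℕ) (η : ℝ), 1 ≤ m₀ → 0 < η → ∃ H₀ : ℕ, ∀ H : ℕ, H₀ ≤ H →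
    (((BXI e H).filter (fun c => ¬ WAG E H m₀ c)).card : ℝ) ≤ η * ((2 * H + 1 : ℕ) : ℝ) ^ ncI e

end Pool.Agent.N718.GC
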