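import Mathlib
import Pool.Agent.N718.GC.Stm
import Pool.Agent.N718.GB.Stm
import Pool.Agent.N713.GB.CHI2

/-!
# Part CHI of project GC (helper718), from part CHI2 of project GB
-/

set_option autoImplicit false

namespace Pool.Agent.N718.GC

open Finset

theorem chi_ : S_CHI := by
  intro r a ha j
  have ha0 : ∀ j, a j ≠ 0 := by
    intro j h0
    refine ha {j} (Finset.singleton_nonempty j) ?_
    rw [Finset.prod_singleton, h0]
    exact ⟨0, by simp⟩
  obtain ⟨h, h1, h2⟩ := Pool.Agent.N713.GB.chi2_ r 0 ⟨fun _ => ∅, a, fun _ => 1⟩ ha0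
    (fun k => if k = j then -1 else 1) (by
      refine ⟨fun k => ?_, fun T hT => ?_⟩
      · by_cases hk : k = j
        · exact Or.inr (if_pos hk)
        · exact Or.inl (if_neg hk)
      · rcases T.eq_empty_or_nonempty with h | h
        · rw [h]
          rfl
        · exact absurd hT (ha T h))
  refine ⟨h, h1, fun l hl => ⟨?_, fun j' hj' => ?_⟩⟩
  · have := h2 l hl j
    simpa using this
  · have := h2 l hl j'
    simpa [hj'] using this

end Pool.Agent.N718.GC
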