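import Mathlib
import Pool.Agent.N718.DC.All
import Pool.Agent.N718.GC.Stm
import Pool.Agent.N539.GC.Kap
import Pool.Agent.N524.GC.LOCN
import Pool.Agent.N523.GC.PROD
import Pool.Agent.N78.GC.ARIG
import Pool.Agent.N971.GC.KCH
import Pool.Agent.N592.GC.PRODK
import Pool.Agent.N833.GC.LCI
import Pool.Agent.N849.GC.CLSG
import Pool.Agent.N718.GC.Chi
import Pool.Agent.N232.GC.DIV
import Pool.Agent.N596.GC.LOCP
import Pool.Agent.N451.GC.RESL
import Pool.Agent.N519.GC.RESW
import Pool.Agent.N530.GC.Triv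
import Pool.Agent.N935.GC.Reals
import Pool.Agent.N919.GC.BOXG
import Pool.Agent.N293.GC.GLUEG
import Pool.Agent.N901.GC.MAINAG
import Pool.Agent.N80.GC.MAINBG

/-!
# Assembly of project GC (helper718)
-/

set_option autoImplicit false

namespace Pool.Agent.N718.GC

open Pool.Agent.N718.DC (amt padc padt ortho)

theorem kap' : S_KAP := Pool.Agent.N539.GC.kap_
theorem locn : S_LOCN := Pool.Agent.N524.GC.locn_
theorem prod' : S_PROD := Pool.Agent.N523.GC.prod_ kap' locn
theorem arig : S_ARIG := Pool.Agent.N78.GC.arig_ locn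
theorem kch : S_KCH := Pool.Agent.N971.GC.kch_ kap'
theorem prodk : S_PRODK := Pool.Agent.N592.GC.prodk_ kap' locn prod'
theorem lci : S_LCI := Pool.Agent.N833.GC.lci_ kap' locn
theorem clsg : S_CLSG := Pool.Agent.N849.GC.clsg_ amt kap' locn arig
theorem chi : S_CHI := chi_
theorem div' : S_DIV := Pool.Agent.N232.GC.div_
theorem locp : S_LOCP := Pool.Agent.N596.GC.locp_
theorem resl : S_RESL := Pool.Agent.N451.GC.resl_ chi div' locp
theorem resw : S_RESW := Pool.Agent.N519.GC.resw_ resl
theorem triv : S_TRIV := Pool.Agent.N530.GC.triv_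
theorem reals : S_REALS := Pool.Agent.N935.GC.reals_ ortho
theorem boxg : S_BOXG := Pool.Agent.N919.GC.boxg_
theorem glueg : S_GLUEG := Pool.Agent.N293.GC.glueg_ padt kap' locn kch prodk
theorem mainag : S_MAINAG := Pool.Agent.N901.GC.mainag_ clsg padc reals glueg lci resw triv locn
theorem mainbg : S_MAINBG := Pool.Agent.N80.GC.mainbg_ boxg triv locn

end Pool.Agent.N718.GC
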