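import Mathlib
import Pool.Agent.N718.DC.AllW
import Pool.Agent.N718.GC.All
import Pool.Agent.N718.GC.Stm2
import Pool.Agent.N250.GC.Wfib
import Pool.Agent.N687.GC.WLOCP
import Pool.Agent.N771.GC.WLOCR
import Pool.Agent.N559.GC.MainWG

/-!
# Assembly of project GC, second part: weak approximation (helper718)
-/

set_option autoImplicit false

namespace Pool.Agent.N718.GC

theorem wfib : S_WFIB := Pool.Agent.N250.GC.wfib_ Pool.Agent.N718.DC.cwa
theorem wlocp : S_WLOCP := Pool.Agent.N687.GC.wlocp_
theorem wlocr : S_WLOCR := Pool.Agent.N771.GC.wlocr_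
theorem mainwg : S_MAINWG := Pool.Agent.N559.GC.mainwg_ mainag locn wfib wlocp wlocr

end Pool.Agent.N718.GC
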